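import Pool.Agent.W593.ZT.Stm

open scoped Classical

set_option autoImplicit false

namespace Pool.Agent.W912.ZT

open Pool.Agent.W593.ZT

theorem choose2 {V : Type} (X : Finset V) (f : V → ℕ) (h : 2 ≤ ∑ z ∈ X, f z) :
    (∃ z ∈ X, 2 ≤ f z) ∨ ∃ z1 ∈ X, ∃ z2 ∈ X, z1 ≠ z2 ∧ 1 ≤ f z1 ∧ 1 ≤ f z2 := by
  by_contra hc
  push Not at hc
  obtain ⟨h1, h2⟩ := hc
  by_cases hex : ∃ z ∈ X, 1 ≤ f z
  · obtain ⟨z, hz, hfz⟩ := hex
    have h3 : ∑ z ∈ X, f z = f z := Finset.sum_eq_single_of_mem z hz (fun y hy hne => by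
      have := h2 z hz y hy hne.symm hfz; omega)
    have := h1 z hz; omega
  · push Not at hex
    have : ∑ z ∈ X, f z = 0 := Finset.sum_eq_zero (fun z hz => by have := hex z hz; omega)
    omega

set_option linter.unusedSectionVars false

section
variable {V G : Type} [Fintype V] [AddCommGroup G] [Fintype G] {c : V → V → G}
  {M : AddSubgroup G} {B : Finset V}

theorem Cs_mono {H H' : Finset V} (h : H ⊆ H') (z : V) : Cs c H z ⊆ Cs c H' z :=
  Finset.image_subset_image h

theorem app (hC3 : S_C3) (hNSL : S_NSL) (hK : K3H c M B) (a : G) (b1 : V) (Bn Hn Z : Finset V)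
    (hb : b1 ∈ Bn) (h1 : Bn ⊆ Hn) (h2 : Bn ⊆ B) (hd : Disjoint Hn Z)
    (hT : ∀ z ∈ Z, Tc M (Cs c B z)) (hu : 2 ≤ ∑ z ∈ Z, ((Cs c Bn z).card - 1))
    (ha : ∀ z ∈ Z, c z b1 - a ∈ M) :
    ((Finset.univ \ (Hn ∪ Z)).filter (fun y => ∃ h ∈ Hn, c y h - a ∈ M)).card + 2 ≤ M.index := by
  have hcov : Cov ⊥ M Z (fun z => Cs c Bn z) := by
    refine hC3 V G M hK.k3 Z _ ?_ hu
    intro z hz
    refine ⟨⟨c z b1, Finset.mem_image_of_mem _ hb⟩, ?_⟩
    intro x hx y hy
    exact hT z hz x (Cs_mono h2 z hx) y (Cs_mono h2 z hy)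
  refine hNSL V G c hK.ctx M a Hn Z (fun z => Cs c Bn z) (fun z => c z b1) hK.mt ⟨b1, h1 hb⟩ hd
    (fun z _ => Cs_mono h1 z) hcov (fun z _ => Finset.mem_image_of_mem _ hb) ?_
  rw [← Finset.sum_const, ← Finset.sum_sub_distrib]
  exact AddSubgroup.sum_mem _ ha

theorem nc_eq {W : Finset V} (hw : ∀ z ∈ Us c M B, Tc M (Cs c B z)) (hW : Wok c M B W) :
    nc c M W B = nc c M Finset.univ B := by
  rcases hW with ⟨rfl, -⟩ | ⟨y, hy, -, rfl⟩
  · rfl
  · unfold nc
    ext z
    simp only [Finset.mem_filter, Finset.mem_sdiff, Finset.mem_erase, Finset.mem_univ, and_true,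
      true_and]
    constructor
    · rintro ⟨⟨-, h1⟩, h2⟩
      exact ⟨h1, h2⟩
    · rintro ⟨h1, h2⟩
      refine ⟨⟨?_, h1⟩, h2⟩
      rintro rfl
      exact h2 (hw _ hy)

end

theorem k3l0 (hK3W : S_K3W) (hC3 : S_C3) (hNSL : S_NSL) : S_K3L0 := by
  intro V G _ _ _ c M B W b1 a z0 hK hW hb1 P
  obtain ⟨hw, hcG, hcV, hsum⟩ := hK3W V G c M B hK
  have hnc : nc c M W B = nc c M Finset.univ B := nc_eq (fun z hz => (hw z hz).2.1) hW
  set ν := (nc c M Finset.univ B).card with hν
  set q := M.index with hq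
  have hnu : ν + 2 ≤ q := hK.nu
  have hwrb : (wr c M a W B).card + 2 ≤ q := P.wrb
  have hz0 := P.z0W
  have hroot := P.root
  rw [hnc] at hroot
  have hBW : B ⊆ W := P.subW
  have hcV' : Fintype.card V = 3 * q + 1 := by
    rw [← hcV, ← Finset.card_univ, Finset.card_sdiff_add_card_eq_card (Finset.subset_univ B)]
  have hWc : (Finset.univ \ W).card ≤ 1 := by
    rcases hW with ⟨rfl, -⟩ | ⟨y, hy, -, rfl⟩
    · simp
    · rw [show (Finset.univ \ Finset.univ.erase y : Finset V) = {y} by
        ext z; simp]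
      simp
  have hWc2 : 3 * q ≤ W.card := by
    have := Finset.card_sdiff_add_card_eq_card (Finset.subset_univ W)
    rw [Finset.card_univ, hcV'] at this
    omega
  have hmemUs : ∀ z ∈ W, z ∉ B → z ∉ nc c M Finset.univ B → z ∈ Us c M B := by
    intro z _ h1 h2
    unfold Us
    simp only [Finset.mem_sdiff, Finset.mem_univ, true_and]
    exact ⟨h1, h2⟩
  have hvw : ∀ z ∈ W, z ∉ B → z ∉ va c M a W B → z ∈ wr c M a W B := by
    intro z h1 h2 h3
    unfold wr
    unfold va at h3
    simp only [Finset.mem_filter, Finset.mem_sdiff] at h3 ⊢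
    exact ⟨⟨h1, h2⟩, fun h4 => h3 ⟨⟨h1, h2⟩, h4⟩⟩
  have hva : ∀ z ∈ va c M a W B, z ∈ W ∧ z ∉ B ∧ ∀ h ∈ B, c z h - a ∈ M := by
    intro z hz
    unfold va at hz
    simp only [Finset.mem_filter, Finset.mem_sdiff] at hz
    exact ⟨hz.1.1, hz.1.2, hz.2⟩
  have hncwr : nc c M Finset.univ B ⊆ wr c M a W B := by
    rw [← hnc]
    intro z hz
    unfold nc at hz
    unfold wr
    simp only [Finset.mem_filter, Finset.mem_sdiff] at hz ⊢
    refine ⟨hz.1, fun h4 => hz.2 ?_⟩
    intro x hx y hy
    unfold Cs at hx hy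
    obtain ⟨h, hh, rfl⟩ := Finset.mem_image.1 hx
    obtain ⟨h', hh', rfl⟩ := Finset.mem_image.1 hy
    have := M.sub_mem (h4 h hh) (h4 h' hh')
    rwa [sub_sub_sub_cancel_right] at this
  have hUswr : (Us c M B ∩ wr c M a W B).card + ν ≤ (wr c M a W B).card := by
    rw [hν, ← Finset.card_union_of_disjoint]
    · exact Finset.card_le_card (Finset.union_subset Finset.inter_subset_right hncwr)
    · rw [Finset.disjoint_left]
      intro z hz hz'
      unfold Us at hz
      simp only [Finset.mem_inter, Finset.mem_sdiff] at hz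
      exact hz.1.2 hz'
  have hf2 : ∀ z ∈ Us c M B, (Cs c B z).card - 1 ≤ 2 := by
    intro z hz
    have := (hw z hz).2.2
    omega
  have hsymm := hK.ctx.sym
  rcases Nat.lt_or_ge q 3 with hq3 | hq3
  · -- `q = 2`
    have hq2 : q = 2 := by omega
    have hwr0 : wr c M a W B = ∅ := by
      rw [← Finset.card_eq_zero]; omega
    have hnc0 : nc c M Finset.univ B = ∅ := by
      rw [← Finset.card_eq_zero]; omega
    have hν0 : ν = 0 := by omega
    have hB4 := hK.q2 hq2
    set X := W \ B with hX
    have hXUs : ∀ z ∈ X, z ∈ Us c M B := by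
      intro z hz
      rw [hX, Finset.mem_sdiff] at hz
      exact hmemUs z hz.1 hz.2 (by rw [hnc0]; simp)
    have hXva : ∀ z ∈ X, ∀ h ∈ B, c z h - a ∈ M := by
      intro z hz
      rw [hX, Finset.mem_sdiff] at hz
      by_contra hcon
      have h5 : z ∈ wr c M a W B := by
        refine hvw z hz.1 hz.2 fun h6 => hcon (hva z h6).2.2
      rw [hwr0] at h5
      simp at h5
    have hXc : 2 ≤ X.card := by
      have := Finset.card_sdiff_add_card_eq_card hBW
      rw [← hX] at this
      omega
    have hXs : 3 ≤ ∑ z ∈ X, ((Cs c B z).card - 1) := by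
      have hsub : X ⊆ Us c M B := hXUs
      have h6 := Finset.sum_sdiff (f := fun z => (Cs c B z).card - 1) hsub
      have h7 : ∑ z ∈ Us c M B \ X, ((Cs c B z).card - 1) ≤ (Us c M B \ X).card • 2 :=
        Finset.sum_le_card_nsmul _ _ _ (fun z hz => hf2 z (Finset.mem_sdiff.1 hz).1)
      have h8 : (Us c M B \ X).card ≤ (Finset.univ \ W).card := by
        refine Finset.card_le_card ?_
        intro z hz
        unfold Us at hz
        simp only [hX, Finset.mem_sdiff, Finset.mem_univ, true_and] at hz ⊢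
        intro h9
        exact hz.2 ⟨h9, hz.1.1⟩
      rw [smul_eq_mul] at h7
      omega
    have key : ∀ Z ⊆ X, 2 ≤ ∑ z ∈ Z, ((Cs c B z).card - 1) → (X \ Z).card = 0 := by
      intro Z hZ hu
      have h6 := app hC3 hNSL hK a b1 B B Z hb1 subset_rfl subset_rfl (by
        rw [Finset.disjoint_left]
        intro z hz hz'
        have := hZ hz'
        rw [hX, Finset.mem_sdiff] at this
        exact this.2 hz) (fun z hz => (hw z (hXUs z (hZ hz))).2.1) hu
        (fun z hz => hXva z (hZ hz) b1 hb1)
      have h7 : (X \ Z).card ≤ ((Finset.univ \ (B ∪ Z)).filter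
          (fun y => ∃ h ∈ B, c y h - a ∈ M)).card := by
        refine Finset.card_le_card ?_
        intro y hy
        rw [Finset.mem_sdiff] at hy
        have hy' := hy.1
        rw [hX, Finset.mem_sdiff] at hy'
        simp only [Finset.mem_filter, Finset.mem_sdiff, Finset.mem_univ, true_and,
          Finset.mem_union, not_or]
        exact ⟨⟨hy'.2, hy.2⟩, b1, hb1, hXva y hy.1 b1 hb1⟩
      omega
    by_cases hex : ∃ z ∈ X, 2 ≤ (Cs c B z).card - 1
    · obtain ⟨z, hz, hfz⟩ := hex
      have h6 := key {z} (by simpa using hz) (by simpa using hfz)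
      rw [Finset.card_sdiff_of_subset (by simpa using hz), Finset.card_singleton] at h6
      omega
    · rcases choose2 X _ (le_trans (by norm_num) hXs) with h7 | ⟨z1, hz1, z2, hz2, hne, f1, f2⟩
      · exact hex h7
      · push Not at hex
        have h8 : ∑ z ∈ X, ((Cs c B z).card - 1) ≤ X.card • 1 :=
          Finset.sum_le_card_nsmul _ _ _ (fun z hz => by have := hex z hz; omega)
        rw [smul_eq_mul, mul_one] at h8
        have hsub : ({z1, z2} : Finset V) ⊆ X := by
          intro z hz
          rw [Finset.mem_insert, Finset.mem_singleton] at hz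
          rcases hz with rfl | rfl <;> assumption
        have h6 := key {z1, z2} hsub (by rw [Finset.sum_pair hne]; omega)
        rw [Finset.card_sdiff_of_subset hsub, Finset.card_pair hne] at h6
        omega
  · -- `q ≥ 3`
    set X := (Us c M B ∩ va c M a W B).erase z0 with hX
    have hXUs : X ⊆ Us c M B := (Finset.erase_subset _ _).trans Finset.inter_subset_left
    have hXs : 2 ≤ ∑ z ∈ X, ((Cs c B z).card - 1) := by
      have h6 := Finset.sum_sdiff (f := fun z => (Cs c B z).card - 1) hXUs
      have h7 : ∑ z ∈ Us c M B \ X, ((Cs c B z).card - 1) ≤ (Us c M B \ X).card • 2 :=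
        Finset.sum_le_card_nsmul _ _ _ (fun z hz => hf2 z (Finset.mem_sdiff.1 hz).1)
      have h8 : Us c M B \ X ⊆ (Us c M B ∩ wr c M a W B) ∪ ({z0} ∪ (Finset.univ \ W)) := by
        intro z hz
        rw [Finset.mem_sdiff] at hz
        simp only [Finset.mem_union, Finset.mem_inter, Finset.mem_singleton, Finset.mem_sdiff,
          Finset.mem_univ, true_and]
        by_cases hzW : z ∈ W
        · have hzB : z ∉ B := by
            have := hz.1
            unfold Us at this
            simp only [Finset.mem_sdiff, Finset.mem_univ, true_and] at this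
            exact this.1
          by_cases hzva : z ∈ va c M a W B
          · by_cases hzz : z = z0
            · exact Or.inr (Or.inl hzz)
            · exfalso
              apply hz.2
              rw [hX, Finset.mem_erase, Finset.mem_inter]
              exact ⟨hzz, hz.1, hzva⟩
          · exact Or.inl ⟨hz.1, hvw z hzW hzB hzva⟩
        · exact Or.inr (Or.inr hzW)
      have h9 := Finset.card_le_card h8
      have h10 := Finset.card_union_le (Us c M B ∩ wr c M a W B) ({z0} ∪ (Finset.univ \ W))
      have h11 := Finset.card_union_le {z0} (Finset.univ \ W)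
      rw [Finset.card_singleton] at h11
      rw [smul_eq_mul] at h7
      omega
    have hXva : ∀ z ∈ X, z ≠ z0 ∧ z ∉ B ∧ c z b1 - a ∈ M := by
      intro z hz
      rw [hX, Finset.mem_erase, Finset.mem_inter] at hz
      obtain ⟨-, h12, h13⟩ := hva z hz.2.2
      exact ⟨hz.1, h12, h13 b1 hb1⟩
    -- the main estimate
    have key : ∀ Z Bn : Finset V, Z ⊆ X → Z.card ≤ 2 → b1 ∈ Bn → Bn ⊆ B → Bn.card ≤ 3 →
        2 ≤ ∑ z ∈ Z, ((Cs c Bn z).card - 1) → False := by
      intro Z Bn hZ hZc hbn hBn hBnc hu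
      have h6 := app hC3 hNSL hK a b1 Bn (insert z0 Bn) Z hbn (Finset.subset_insert _ _) hBn (by
        rw [Finset.disjoint_left]
        intro z hz hz'
        obtain ⟨g1, g2, -⟩ := hXva z (hZ hz')
        rcases Finset.mem_insert.1 hz with h | h
        · exact g1 h
        · exact g2 (hBn h)) (fun z hz => (hw z (hXUs (hZ hz))).2.1) hu
        (fun z hz => (hXva z (hZ hz)).2.2)
      have h7 : W \ (insert z0 Bn ∪ Z ∪ nc c M Finset.univ B) ⊆
          (Finset.univ \ (insert z0 Bn ∪ Z)).filter
            (fun y => ∃ h ∈ insert z0 Bn, c y h - a ∈ M) := by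
        intro y hy
        simp only [Finset.mem_sdiff, Finset.mem_union, not_or, Finset.mem_insert] at hy
        simp only [Finset.mem_filter, Finset.mem_sdiff, Finset.mem_univ, true_and,
          Finset.mem_union, not_or, Finset.mem_insert]
        refine ⟨hy.2.1, z0, Or.inl rfl, ?_⟩
        rw [hsymm]
        exact hroot y hy.1 hy.2.1.1.1 hy.2.2
      have h8 := Finset.card_le_card h7
      have h9 := Finset.le_card_sdiff (insert z0 Bn ∪ Z ∪ nc c M Finset.univ B) W
      have h10 := Finset.card_union_le (insert z0 Bn ∪ Z) (nc c M Finset.univ B)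
      have h11 := Finset.card_union_le (insert z0 Bn) Z
      have h12 := Finset.card_insert_le z0 Bn
      omega
    rcases choose2 X _ hXs with ⟨z, hz, hfz⟩ | ⟨z1, hz1, z2, hz2, hne, f1, f2⟩
    · have hb1C : c z b1 ∈ Cs c B z := Finset.mem_image_of_mem _ hb1
      have h5 : 1 < ((Cs c B z).erase (c z b1)).card := by
        rw [Finset.card_erase_of_mem hb1C]
        omega
      obtain ⟨x, hx, x', hx', hxx⟩ := Finset.one_lt_card.1 h5
      rw [Finset.mem_erase] at hx hx'
      obtain ⟨hx1, hx2⟩ := hx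
      obtain ⟨hx1', hx2'⟩ := hx'
      obtain ⟨h, hh, rfl⟩ := Finset.mem_image.1 hx2
      obtain ⟨h', hh', rfl⟩ := Finset.mem_image.1 hx2'
      refine key {z} {b1, h, h'} (by simpa using hz) (by simp) (by simp) ?_ Finset.card_le_three ?_
      · intro v hv
        simp only [Finset.mem_insert, Finset.mem_singleton] at hv
        rcases hv with rfl | rfl | rfl <;> assumption
      · rw [Finset.sum_singleton]
        have h14 : ({c z b1, c z h, c z h'} : Finset G) ⊆ Cs c {b1, h, h'} z := by
          intro v hv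
          simp only [Finset.mem_insert, Finset.mem_singleton] at hv
          unfold Cs
          rcases hv with rfl | rfl | rfl <;> exact Finset.mem_image_of_mem _ (by simp)
        have h15 := Finset.card_le_card h14
        rw [Finset.card_eq_three.2 ⟨c z b1, c z h, c z h', hx1.symm, hx1'.symm, hxx, rfl⟩] at h15
        omega
    · have hpick : ∀ z, 1 ≤ (Cs c B z).card - 1 → ∃ h ∈ B, c z h ≠ c z b1 := by
        intro z hz
        have hb1C : c z b1 ∈ Cs c B z := Finset.mem_image_of_mem _ hb1
        have h5 : 0 < ((Cs c B z).erase (c z b1)).card := by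
          rw [Finset.card_erase_of_mem hb1C]
          omega
        obtain ⟨x, hx⟩ := Finset.card_pos.1 h5
        rw [Finset.mem_erase] at hx
        obtain ⟨h, hh, rfl⟩ := Finset.mem_image.1 hx.2
        exact ⟨h, hh, hx.1⟩
      obtain ⟨h1, hh1, e1⟩ := hpick z1 f1
      obtain ⟨h2, hh2, e2⟩ := hpick z2 f2
      have hcs : ∀ z h, h ∈ ({b1, h1, h2} : Finset V) → c z h ≠ c z b1 →
          2 ≤ (Cs c {b1, h1, h2} z).card := by
        intro z h hh hne
        rw [← Finset.card_pair hne]
        refine Finset.card_le_card ?_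
        intro v hv
        simp only [Finset.mem_insert, Finset.mem_singleton] at hv
        unfold Cs
        rcases hv with rfl | rfl
        · exact Finset.mem_image_of_mem _ hh
        · exact Finset.mem_image_of_mem _ (by simp)
      refine key {z1, z2} {b1, h1, h2} ?_ Finset.card_le_two (by simp) ?_ Finset.card_le_three ?_
      · intro z hz
        rw [Finset.mem_insert, Finset.mem_singleton] at hz
        rcases hz with rfl | rfl <;> assumption
      · intro v hv
        simp only [Finset.mem_insert, Finset.mem_singleton] at hv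
        rcases hv with rfl | rfl | rfl <;> assumption
      · rw [Finset.sum_pair hne]
        have g1 := hcs z1 h1 (by simp) e1
        have g2 := hcs z2 h2 (by simp) e2
        omega

end Pool.Agent.W912.ZT
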